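import Pool.Agent.Y930.Bz.G

/-!
# The moment bound for the Barnes multiple zeta-function fails for all `r` and all dimensions `d ≥ 2`

For every `r ≥ 2` and every `d` with `2 ≤ d ≤ r` there are weights `w` spanning a `ℚ`-space of dimension
`d` such that for every `a > 0`, every `k ≥ 1` and every `σ` in `[r - d/2, r - 1/2)` the `2k`-th moment
of `ζ_r(σ + it; a, w)` is not `O(T^(1+η))` for any `η < 2k (r - 1/2 - σ)`. The same holds for generic
weights (a residual set, `d = r`).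

Proof idea: `K(z) = ∑ exp(-(a + m·w) z) = exp(-a z) ∏ 1/(1 - exp(-w_j z))` is the inverse Mellin
transform of `Γ(s) ζ_r(s)` in the half-plane `Re z > 0`. If all the numbers `D w_j` are extremely close
to integers, then `K` nearly has a pole of order `r` at `2 π i D`. On the other hand, after a shift of
the upper half of the line of integration to `Re s = σ` (with a factor `exp(κ s²)`, `κ → 0`), a bound
`O(T^(1+η))` for the `2k`-th moment and Stirling's formula bound `K` at `2 π i D + y` by a constant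
times `(D / y)^(σ + 1/2 + η/(2k))`. Hence `σ + 1/2 + η/(2k) ≥ r`.
-/

set_option autoImplicit false

open Filter Topology Asymptotics

namespace Pool.Agent.Results.MP_047497_nt.AllDimensions

/-- The Dirichlet series `∑ (a + m₁ w₁ + ⋯ + m_r w_r)^{-s}` over `m ∈ ℕ^r` (with `0 ∈ ℕ`). -/
noncomputable def barnesSeries (r : ℕ) (a : ℝ) (w : Fin r → ℝ) (s : ℂ) : ℂ :=
  ∑' m : Fin r → ℕ, ((a + ∑ i, (m i : ℝ) * w i : ℝ) : ℂ) ^ (-s)

/-- `Z` is the Barnes multiple zeta-function `ζ_r(·; a, w)`: it is holomorphic on the complex plane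
except for possible simple poles at `1, …, r`, and for `Re s > r` it is given by the (summable)
Dirichlet series. -/
structure IsBarnesZeta (r : ℕ) (a : ℝ) (w : Fin r → ℝ) (Z : ℂ → ℂ) : Prop where
  holomorphic : ∀ s : ℂ, (∀ j : ℕ, 1 ≤ j → j ≤ r → s ≠ j) → DifferentiableAt ℂ Z s
  simple_pole : ∀ j : ℕ, 1 ≤ j → j ≤ r →
    ∃ c : ℂ, Tendsto (fun s : ℂ => (s - j) * Z s) (𝓝[≠] (j : ℂ)) (𝓝 c)
  summable : ∀ s : ℂ, (r : ℝ) < s.re →
    Summable fun m : Fin r → ℕ => ((a + ∑ i, (m i : ℝ) * w i : ℝ) : ℂ) ^ (-s)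
  series : ∀ s : ℂ, (r : ℝ) < s.re → Z s = barnesSeries r a w s

/-- The dimension `d` of the `ℚ`-vector space spanned by the weights. -/
noncomputable def weightDim (r : ℕ) (w : Fin r → ℝ) : ℕ :=
  Module.finrank ℚ (Submodule.span ℚ (Set.range w))

/-- The moment `∫_1^T |Z(σ + i t)|^{2k} dt`. -/
noncomputable def moment (Z : ℂ → ℂ) (k : ℕ) (σ T : ℝ) : ℝ :=
  ∫ t in (1 : ℝ)..T, ‖Z (σ + t * Complex.I)‖ ^ (2 * k)

/-- For every `a > 0`, `k ≥ 1`, `1/2 < σ < r - 1/2` and `η < 2k (r - 1/2 - σ)` the moment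
`I_k(σ, T)` of `ζ_r(·; a, w)` is not `O(T^(1+η))`. If the weights span a space of dimension `d ≥ 2`,
then `r - d/2 ≥ 1`, so this covers all `σ` with `r - d/2 ≤ σ < r - 1/2`. -/
def MomentsLarge (r : ℕ) (w : Fin r → ℝ) : Prop :=
  ∀ (a : ℝ) (Z : ℂ → ℂ), 0 < a → IsBarnesZeta r a w Z → ∀ k : ℕ, 1 ≤ k → ∀ σ η : ℝ,
    1 / 2 < σ → σ < r - 1 / 2 → η < 2 * k * (r - 1 / 2 - σ) →
    ¬ (fun T : ℝ => moment Z k σ T) =O[atTop] fun T : ℝ => T ^ (1 + η)

theorem exists_zeta (r : ℕ) (a : ℝ) (w : Fin r → ℝ) (ha : 0 < a) (hw : ∀ i, 0 < w i) :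
    ∃ Z : ℂ → ℂ, IsBarnesZeta r a w Z := by
  obtain ⟨c, hc⟩ := Pool.Agent.H131R5.BZ.exists_taylor a hw
  refine ⟨Pool.Agent.H131R5.BZ.FF a w c, ?_, ?_, ?_, ?_⟩
  · exact fun s hs => Pool.Agent.H131R5.BZ.FF_diff ha hw hc hs
  · exact fun j h1 h2 => Pool.Agent.Y930.Bz.FF_pole ha hw hc j h1 h2
  · exact fun s hs => (Pool.Agent.H131R5.BZ.FF_series ha hw hc hs).summable
  · exact fun s hs => (Pool.Agent.H131R5.BZ.FF_series ha hw hc hs).tsum_eq.symm

theorem large_of_simL {r : ℕ} {w : Fin r → ℝ} (hw : ∀ i, 0 < w i)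
    (hL : Pool.Agent.Y930.Bz.SimL w) : MomentsLarge r w := by
  intro a Z ha hZ k hk σ η hσ hσr hη
  refine Pool.Agent.Y930.Bz.not_moment ha hw hL (n := 2 * k) (fun s hs => hZ.holomorphic s hs)
    (fun s hs => hZ.series s hs) (by omega) hσ hσr ?_
  push_cast
  exact hη

/-- (1) The Barnes multiple zeta-function exists (as defined above) for all `r`, `a > 0` and positive
weights `w`. (2) For all `1 ≤ d ≤ r` there are positive weights which span a `ℚ`-space of dimension `d`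
and for which the moments are large, in the sense of `MomentsLarge`. So for every `r ≥ 2` and every
dimension `2 ≤ d ≤ r` the bound `I_k(σ, T) = O(T^(1+ε))` fails, for all `a > 0`, all `k` and all
`σ ∈ [r - d/2, r - 1/2)`. (3) The same holds for generic weights: the positive weights `w` in a
residual subset of `ℝ^r` span a space of dimension `r` and have large moments. -/
theorem result :
    (∀ (r : ℕ) (a : ℝ) (w : Fin r → ℝ), 0 < a → (∀ i, 0 < w i) →
      ∃ Z : ℂ → ℂ, IsBarnesZeta r a w Z) ∧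
    (∀ r d : ℕ, 1 ≤ d → d ≤ r → ∃ w : Fin r → ℝ, (∀ i, 0 < w i) ∧ weightDim r w = d ∧
      MomentsLarge r w) ∧
    (∀ r : ℕ, ∀ᶠ w in residual (Fin r → ℝ), (∀ i, 0 < w i) →
      weightDim r w = r ∧ MomentsLarge r w) := by
  refine ⟨exists_zeta, fun r d hd hdr => ?_, fun r => ?_⟩
  · obtain ⟨w, hw, hdim, hL⟩ := Pool.Agent.Y930.Bz.exists_weights hd hdr
    exact ⟨w, hw, hdim, large_of_simL hw hL⟩
  · filter_upwards [Pool.Agent.Y930.Bz.simL_residual r, Pool.Agent.Y930.Bz.indep_residual r]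
      with w hL hli hw
    refine ⟨?_, large_of_simL hw hL⟩
    unfold weightDim
    rw [finrank_span_eq_card hli]
    simp

end Pool.Agent.Results.MP_047497_nt.AllDimensions
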