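import Pool.Agent.Y616.BM.Main

/-!
# The mean square bound for the Barnes multiple zeta-function holds for almost all weights

For every `d ≥ 1` and almost every `v ∈ ℝ^d` the following holds. For every `r` and all positive
weights `w` with `ℚ w₁ + ⋯ + ℚ w_r = ℚ v₁ + ⋯ + ℚ v_d` (so that the dimension is `d`), every `a > 0`,
every `σ ≥ r - d/2` and every `ε > 0` we have `∫_1^T |ζ_r(σ + it; a, w)|² dt = O(T^(1+ε))`. So the
conjectured bound for `k = 1` is true, in the full range of `σ`, for almost all weights in every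
rational subspace of `ℝ^r`.

Proof idea: after subtraction of an explicit elementary function, `Γ(s) ζ_r(s; a, w)` is the Mellin
transform of a regularised kernel `K(z) = exp(-a z) ∏ 1/(1 - exp(-w_j z))`; rotation of the ray of
integration to the angle `π/2 - 1/T`, Plancherel's theorem and Stirling's formula bound the mean square
over `[T, 2T]` by `T^(1-2σ)` times the integral of `|K(z)|² |z|^(2σ-1)` over the ray. The average of
`|K(z)|²` over the weights in a bounded part of a rational family is `O((Re z)^(-(2r-d)))`, because one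
factor `|1 - exp(-w z)|⁻²` has average `O(1 + 1/Re z)`. Summation over `T = 2^n` gives the bound for
almost all parameters.
-/

set_option autoImplicit false

open Filter Topology Asymptotics MeasureTheory

namespace Pool.Agent.Results.MP_047497_nt.AlmostAllWeights

/-- The Dirichlet series `∑ (a + m₁ w₁ + ⋯ + m_r w_r)^{-s}` over `m ∈ ℕ^r` (with `0 ∈ ℕ`). -/
noncomputable def barnesSeries (r : ℕ) (a : ℝ) (w : Fin r → ℝ) (s : ℂ) : ℂ :=
  ∑' m : Fin r → ℕ, ((a + ∑ i, (m i : ℝ) * w i : ℝ) : ℂ) ^ (-s)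

/-- `Z` is the Barnes multiple zeta-function `ζ_r(·; a, w)`: it is holomorphic on the complex plane
except for possible simple poles at `1, …, r`, and for `Re s > r` it is given by the (summable)
Dirichlet series. -/
structure IsBarnesZeta (r : ℕ) (a : ℝ) (w : Fin r → ℝ) (Z : ℂ → ℂ) : Prop where
  holomorphic : ∀ s : ℂ, (∀ j : ℕ, 1 ≤ j → j ≤ r → s ≠ j) → DifferentiableAt ℂ Z s
  simple_pole : ∀ j : ℕ, 1 ≤ j → j ≤ r →
    ∃ c : ℂ, Tendsto (fun s : ℂ => (s - j) * Z s) (𝓝[≠] (j : ℂ)) (𝓝 c)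
  summable : ∀ s : ℂ, (r : ℝ) < s.re →
    Summable fun m : Fin r → ℕ => ((a + ∑ i, (m i : ℝ) * w i : ℝ) : ℂ) ^ (-s)
  series : ∀ s : ℂ, (r : ℝ) < s.re → Z s = barnesSeries r a w s

/-- The dimension `d` of the `ℚ`-vector space spanned by the weights. -/
noncomputable def weightDim (r : ℕ) (w : Fin r → ℝ) : ℕ :=
  Module.finrank ℚ (Submodule.span ℚ (Set.range w))

/-- The moment `∫_1^T |Z(σ + i t)|^{2k} dt`. -/
noncomputable def moment (Z : ℂ → ℂ) (k : ℕ) (σ T : ℝ) : ℝ :=
  ∫ t in (1 : ℝ)..T, ‖Z (σ + t * Complex.I)‖ ^ (2 * k)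

/-- The conjectured bound for `k = 1` and the weights `w`: with `d` the dimension of the weights,
`I_1(σ, T) = O(T^(1+ε))` for all `a > 0`, all `σ ≥ r - d/2` and all `ε > 0`. -/
def MeanSquareBound (r : ℕ) (w : Fin r → ℝ) : Prop :=
  ∀ (a : ℝ) (Z : ℂ → ℂ), 0 < a → IsBarnesZeta r a w Z → ∀ σ ε : ℝ,
    (r : ℝ) - (weightDim r w : ℝ) / 2 ≤ σ → 0 < ε →
    (fun T : ℝ => moment Z 1 σ T) =O[atTop] fun T : ℝ => T ^ (1 + ε)

theorem exists_zeta (r : ℕ) (a : ℝ) (w : Fin r → ℝ) (ha : 0 < a) (hw : ∀ i, 0 < w i) :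
    ∃ Z : ℂ → ℂ, IsBarnesZeta r a w Z := by
  obtain ⟨c, hc⟩ := Pool.Agent.H131R5.BZ.exists_taylor a hw
  refine ⟨Pool.Agent.H131R5.BZ.FF a w c, ?_, ?_, ?_, ?_⟩
  · exact fun s hs => Pool.Agent.H131R5.BZ.FF_diff ha hw hc hs
  · exact fun j h1 h2 => Pool.Agent.Y930.Bz.FF_pole ha hw hc j h1 h2
  · exact fun s hs => (Pool.Agent.H131R5.BZ.FF_series ha hw hc hs).summable
  · exact fun s hs => (Pool.Agent.H131R5.BZ.FF_series ha hw hc hs).tsum_eq.symm

theorem bound_of_good {d : ℕ} (hd : 1 ≤ d) {v : Fin d → ℝ} (hv : LinearIndependent ℚ v)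
    (hG : Pool.Agent.Y616.BM.Good v) {r : ℕ} {w : Fin r → ℝ} (hw : ∀ i, 0 < w i)
    (hspan : Submodule.span ℚ (Set.range w) = Submodule.span ℚ (Set.range v)) :
    weightDim r w = d ∧ MeanSquareBound r w := by
  have hdim : weightDim r w = d := by
    unfold weightDim
    rw [hspan, finrank_span_eq_card hv]
    simp
  refine ⟨hdim, fun a Z ha hZ σ ε hσ hε => ?_⟩
  rw [hdim] at hσ
  obtain ⟨c, hc⟩ := Pool.Agent.H131R5.BZ.exists_taylor a hw
  obtain ⟨C, hC, hb⟩ := Pool.Agent.Y616.BM.second_moment hd hv hG ha hw hspan hc hσ hε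
  have hZF : ∀ t : ℝ, 1 ≤ t → Z ((σ : ℂ) + t * Complex.I) =
      Pool.Agent.H131R5.BZ.FF a w c ((σ : ℂ) + t * Complex.I) := by
    intro t ht
    have hE := Pool.Agent.Y930.Bz.eq_FF ha hw hc (fun s hs => hZ.holomorphic s hs)
      (fun s hs => hZ.series s hs)
    have hm : ((σ : ℂ) + t * Complex.I) ∈ Pool.Agent.Y930.Bz.Om r := by
      intro k _ _ h
      have := congrArg Complex.im h
      simp at this
      linarith
    exact hE _ hm
  refine IsBigO.of_bound C (eventually_atTop.2 ⟨1, fun T hT => ?_⟩)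
  have h1 : ‖moment Z 1 σ T‖ ≤ (∫⁻ t in Set.Icc 1 T,
      ‖Pool.Agent.H131R5.BZ.FF a w c ((σ : ℂ) + t * Complex.I)‖ₑ ^ 2).toReal := by
    unfold moment
    rw [intervalIntegral.integral_of_le hT]
    refine (norm_integral_le_lintegral_norm _).trans ?_
    apply ENNReal.toReal_mono
    · exact ne_top_of_le_ne_top ENNReal.ofReal_ne_top (hb T hT)
    · refine (lintegral_mono_set Set.Ioc_subset_Icc_self).trans ?_
      refine setLIntegral_mono' measurableSet_Icc fun t ht => ?_
      rw [← hZF t ht.1, mul_one, norm_pow, norm_norm, ENNReal.ofReal_pow (norm_nonneg _),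
        ofReal_norm]
  have h2 : (∫⁻ t in Set.Icc 1 T,
      ‖Pool.Agent.H131R5.BZ.FF a w c ((σ : ℂ) + t * Complex.I)‖ₑ ^ 2).toReal ≤
      C * T ^ (1 + ε) := by
    refine ENNReal.toReal_le_of_le_ofReal (by positivity) (hb T hT)
  rw [Real.norm_of_nonneg (show 0 ≤ T ^ (1 + ε) by positivity)]
  exact h1.trans h2

/-- the span of the weights of a rational family -/
theorem span_of_matrix {r d : ℕ} (B : Matrix (Fin r) (Fin d) ℚ) (hB : Function.Injective B.mulVec)
    (v : Fin d → ℝ) :
    Submodule.span ℚ (Set.range ((B.map (fun q : ℚ => (q : ℝ))).mulVec v)) =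
      Submodule.span ℚ (Set.range v) := by
  set w := (B.map (fun q : ℚ => (q : ℝ))).mulVec v with hw
  have hwj : ∀ j, w j = ∑ i, B j i • v i := by
    intro j
    simp only [hw, Matrix.mulVec, dotProduct, Matrix.map_apply, Rat.smul_def]
  obtain ⟨g, hg⟩ := LinearMap.exists_leftInverse_of_injective B.mulVecLin
    (LinearMap.ker_eq_bot.2 hB)
  set G := LinearMap.toMatrix' g with hG
  have hGB : G * B = 1 := by
    have h1 := congrArg LinearMap.toMatrix' hg
    rw [LinearMap.toMatrix'_comp, LinearMap.toMatrix'_id] at h1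
    rw [← h1, hG]
    congr 1
    exact (LinearMap.toMatrix'_toLin' B).symm
  have hvi : ∀ i, v i = ∑ j, G i j • w j := by
    intro i
    calc v i = ∑ k, (1 : Matrix (Fin d) (Fin d) ℚ) i k • v k := by
          simp [Matrix.one_apply]
      _ = ∑ k, (∑ j, G i j * B j k) • v k := by
          rw [← hGB]
          rfl
      _ = ∑ j, G i j • ∑ k, B j k • v k := by
          simp only [Finset.smul_sum, Finset.sum_smul, smul_smul]
          exact Finset.sum_comm
      _ = _ := by simp only [hwj]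
  apply le_antisymm
  · rw [Submodule.span_le]
    rintro _ ⟨j, rfl⟩
    rw [hwj j]
    exact Submodule.sum_mem _ fun i _ => Submodule.smul_mem _ _
      (Submodule.subset_span (Set.mem_range_self i))
  · rw [Submodule.span_le]
    rintro _ ⟨i, rfl⟩
    rw [hvi i]
    exact Submodule.sum_mem _ fun j _ => Submodule.smul_mem _ _
      (Submodule.subset_span (Set.mem_range_self j))

/-- (1) The Barnes multiple zeta-function exists (as defined above) for all `r`, `a > 0` and positive
weights `w`. (2) For every `d ≥ 1` and almost every `v ∈ ℝ^d`: all positive weights `w`, in any number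
`r`, which span the same `ℚ`-space as `v` have dimension `d` and satisfy `MeanSquareBound`. (3) For
`1 ≤ d` and every rational `r × d` matrix `B` of rank `d`, for almost every `v ∈ ℝ^d` the weights
`w = B v`, if positive, have dimension `d` and satisfy `MeanSquareBound`. (4) Almost all positive
`w ∈ ℝ^r` have dimension `r` and satisfy `MeanSquareBound`. -/
theorem result :
    (∀ (r : ℕ) (a : ℝ) (w : Fin r → ℝ), 0 < a → (∀ i, 0 < w i) →
      ∃ Z : ℂ → ℂ, IsBarnesZeta r a w Z) ∧
    (∀ d : ℕ, 1 ≤ d → ∀ᵐ v : Fin d → ℝ, LinearIndependent ℚ v ∧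
      ∀ (r : ℕ) (w : Fin r → ℝ), (∀ i, 0 < w i) →
        Submodule.span ℚ (Set.range w) = Submodule.span ℚ (Set.range v) →
        weightDim r w = d ∧ MeanSquareBound r w) ∧
    (∀ r d : ℕ, 1 ≤ d → ∀ B : Matrix (Fin r) (Fin d) ℚ, Function.Injective B.mulVec →
      ∀ᵐ v : Fin d → ℝ, (∀ i, 0 < (B.map (fun q : ℚ => (q : ℝ))).mulVec v i) →
        weightDim r ((B.map (fun q : ℚ => (q : ℝ))).mulVec v) = d ∧
          MeanSquareBound r ((B.map (fun q : ℚ => (q : ℝ))).mulVec v)) ∧
    (∀ r : ℕ, 1 ≤ r → ∀ᵐ w : Fin r → ℝ, (∀ i, 0 < w i) →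
      weightDim r w = r ∧ MeanSquareBound r w) := by
  refine ⟨exists_zeta, fun d hd => ?_, fun r d hd B hB => ?_, fun r hr => ?_⟩
  · filter_upwards [Pool.Agent.Y616.BM.ae_good d, Pool.Agent.Y616.BM.ae_indep d] with v hG hv
    exact ⟨hv, fun r w hw hspan => bound_of_good hd hv hG hw hspan⟩
  · filter_upwards [Pool.Agent.Y616.BM.ae_good d, Pool.Agent.Y616.BM.ae_indep d] with v hG hv hw
    exact bound_of_good hd hv hG hw (span_of_matrix B hB v)
  · filter_upwards [Pool.Agent.Y616.BM.ae_good r, Pool.Agent.Y616.BM.ae_indep r] with v hG hv hw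
    exact bound_of_good hr hv hG hw rfl

end Pool.Agent.Results.MP_047497_nt.AlmostAllWeights
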